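import Pool.Agent.Q61.PA6
import Pool.Agent.Q61.PA7

/-!
# A reflexive Banach space with a conditional Schauder basis having Property (A)
-/

set_option autoImplicit false

open Finset Filter Topology

namespace Pool.Agent.Results.MP_65ccae_an.ReflexiveConditionalPropertyA

section
variable (𝕜 : Type*) [RCLike 𝕜] {X : Type*} [NormedAddCommGroup X] [NormedSpace 𝕜 X]

/-- `z` is the sum of the norm-convergent expansion `∑ a n • x n`. -/
def IsExpansion (x : ℕ → X) (a : ℕ → 𝕜) (z : X) : Prop :=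
  Tendsto (fun m => ∑ n ∈ range m, a n • x n) atTop (𝓝 z)

/-- `x` is a Schauder basis: every vector has a unique norm-convergent expansion. -/
def IsSchauderBasis (x : ℕ → X) : Prop := ∀ z : X, ∃! a : ℕ → 𝕜, IsExpansion 𝕜 x a z

/-- Every expansion converges unconditionally (`HasSum` is convergence of the net of all finite
partial sums). -/
def IsUnconditional (x : ℕ → X) : Prop :=
  ∀ (z : X) (a : ℕ → 𝕜), IsExpansion 𝕜 x a z → HasSum (fun n => a n • x n) z

/-- The coefficient sequence `b` is a greedy rearrangement of the coefficient sequence `a`. -/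
def IsGreedyRearrangement (a b : ℕ → 𝕜) : Prop :=
  ∃ π : Equiv.Perm ℕ, (∀ n, ‖b (π n)‖ = ‖a n‖) ∧
    ∀ k, 0 < ‖a k‖ → ‖a k‖ < ⨆ n, ‖a n‖ → π k = k ∧ b k = a k

/-- Property (A). -/
def PropertyA (x : ℕ → X) : Prop :=
  ∀ (z w : X) (a b : ℕ → 𝕜), IsExpansion 𝕜 x a z → IsExpansion 𝕜 x b w →
    IsGreedyRearrangement 𝕜 a b → ‖z‖ = ‖w‖

/-- Reflexivity: the canonical map into the bidual is onto. -/
def IsReflexive (X : Type*) [NormedAddCommGroup X] [NormedSpace 𝕜 X] : Prop :=
  Function.Surjective (NormedSpace.inclusionInDoubleDual 𝕜 X)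

/-- `X` is a reflexive space, linearly homeomorphic to the Hilbert space `ℓ₂`, with a conditional
Schauder basis having Property (A). -/
def IsExample (X : Type*) [NormedAddCommGroup X] [NormedSpace 𝕜 X] : Prop :=
  IsReflexive 𝕜 X ∧ Nonempty (X ≃L[𝕜] lp (fun _ : ℕ => 𝕜) 2) ∧
    ∃ x : ℕ → X, IsSchauderBasis 𝕜 x ∧ ¬ IsUnconditional 𝕜 x ∧ PropertyA 𝕜 x

end

/-- **Theorem.** Over `ℝ` and over `ℂ` there is a reflexive Banach space, linearly homeomorphic to
the Hilbert space `ℓ₂`, with a conditional Schauder basis having Property (A). -/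
theorem result.{u} (𝕜 : Type u) [RCLike 𝕜] :
    ∃ (X : Type u) (_ : NormedAddCommGroup X) (_ : NormedSpace 𝕜 X),
      CompleteSpace X ∧ IsExample 𝕜 X := by
  obtain ⟨N, x, f, c, C, hc, hN, h1, h2, ⟨z₀, hz₀⟩, h3⟩ := Q61.PA.main 𝕜
  have h0 : ∀ v, N v = 0 → v = 0 := fun v hv => by
    have h4 := (hN v).1
    rw [hv] at h4
    have h5 : ‖v‖ ≤ 0 := by
      by_contra h6
      have := mul_pos hc (not_le.1 h6)
      linarith
    exact norm_eq_zero.1 (le_antisymm h5 (norm_nonneg _))
  let e : Q61.PA.Ren N h0 ≃L[𝕜] lp (fun _ : ℕ => 𝕜) 2 :=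
    (Q61.PA.toV N h0).toContinuousLinearEquivOfBounds c⁻¹ C
      (fun v => by
        rw [le_inv_mul_iff₀ hc, Q61.PA.norm_ren]
        exact (hN _).1)
      (fun v => by
        rw [Q61.PA.norm_ren, LinearEquiv.apply_symm_apply]
        exact (hN _).2)
  have : CompleteSpace (Q61.PA.Ren N h0) :=
    (completeSpace_congr (e := e.toEquiv) e.isUniformEmbedding).2 inferInstance
  -- convergence of expansions
  have hconv : ∀ (a : ℕ → 𝕜) (z : Q61.PA.Ren N h0),
      IsExpansion 𝕜 (fun n => e.symm (x n)) a z ↔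
        Tendsto (fun m => ∑ n ∈ range m, a n • x n) atTop (𝓝 (e z)) := by
    intro a z
    constructor
    · intro h
      refine ((e.continuous.tendsto z).comp h).congr fun m => ?_
      show e (∑ n ∈ range m, a n • e.symm (x n)) = _
      rw [map_sum]
      exact sum_congr rfl fun n _ => by rw [map_smul, e.apply_symm_apply]
    · intro h
      have h4 := (e.symm.continuous.tendsto _).comp h
      rw [e.symm_apply_apply] at h4
      refine h4.congr fun m => ?_
      show e.symm (∑ n ∈ range m, a n • x n) = _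
      rw [map_sum]
      exact sum_congr rfl fun n _ => by rw [map_smul]
  have h1' : ∀ z, IsExpansion 𝕜 (fun n => e.symm (x n)) (fun n => f n (e z)) z :=
    fun z => (hconv _ _).2 (h1 (e z))
  have h2' : ∀ z (a : ℕ → 𝕜), IsExpansion 𝕜 (fun n => e.symm (x n)) a z →
      a = fun k => f k (e z) := fun z a h => funext (h2 _ a ((hconv _ _).1 h))
  have hbasis : IsSchauderBasis 𝕜 (fun n => e.symm (x n)) := fun z =>
    ⟨fun n => f n (e z), h1' z, fun a h => h2' z a h⟩
  refine ⟨Q61.PA.Ren N h0, inferInstance, inferInstance, inferInstance,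
    Q61.PA.refl_of_equiv e, ⟨e⟩, fun n => e.symm (x n),
    hbasis, fun hun => hz₀ ?_, ?_⟩
  · have h4 := (hun (e.symm z₀) _ (h1' (e.symm z₀))).summable
    have h5 := h4.map e e.continuous
    refine h5.congr fun n => ?_
    show e (f n (e (e.symm z₀)) • e.symm (x n)) = _
    rw [map_smul, e.apply_symm_apply, e.apply_symm_apply]
  · rintro z w a b ha hb ⟨π, hπ1, hπ2⟩
    obtain rfl := h2' z a ha
    obtain rfl := h2' w b hb
    have h4 := h3 (e z) (e w) π hπ1 hπ2
    rw [Q61.PA.norm_ren, Q61.PA.norm_ren]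
    exact h4

end Pool.Agent.Results.MP_65ccae_an.ReflexiveConditionalPropertyA
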